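import Pool.Agent.N658.TP.Stm3

/-! # F3: thermal reference state -/

open scoped BigOperators ComplexConjugate Classical InnerProductSpace Matrix ComplexOrder
open scoped Matrix.Norms.L2Operator

set_option linter.unusedSectionVars false

noncomputable section

namespace Pool.Agent.N160.TP.RefF

open Pool.Agent.Y738.PE Pool.Agent.N658.TP
open Pool.Agent.TH235.PP (ip nr)

variable {n : Type} [Fintype n] [DecidableEq n]

lemma ip_def (u v : n → ℂ) : ip u v = star u ⬝ᵥ v := rfl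

lemma nsq_eq (v : n → ℂ) : nsq v = (star v ⬝ᵥ v).re := by
  unfold nsq Pool.Agent.TH235.PP.normSq
  simp only [dotProduct, Pi.star_apply, Complex.star_def, Complex.re_sum]
  refine Finset.sum_congr rfl fun s _ => ?_
  rw [Complex.conj_mul', ← Complex.ofReal_pow, Complex.ofReal_re]

lemma qf_add (A B : Matrix n n ℂ) (v : n → ℂ) : qf (A + B) v = qf A v + qf B v := by
  unfold qf
  rw [ip_def, ip_def, ip_def, Matrix.add_mulVec, dotProduct_add, Complex.add_re]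

lemma qf_smul (c : ℝ) (A : Matrix n n ℂ) (v : n → ℂ) : qf ((c : ℂ) • A) v = c * qf A v := by
  unfold qf
  rw [ip_def, ip_def, Matrix.smul_mulVec, dotProduct_smul, smul_eq_mul, Complex.re_ofReal_mul]

lemma qf_one (v : n → ℂ) : qf (1 : Matrix n n ℂ) v = nsq v := by
  unfold qf
  rw [ip_def, Matrix.one_mulVec, nsq_eq]

/-- `qf (Aᴴ A) v = |A v|²` -/
lemma qf_conj_mul (A : Matrix n n ℂ) (v : n → ℂ) : qf (Aᴴ * A) v = nsq (A *ᵥ v) := by
  unfold qf
  rw [ip_def, nsq_eq, Matrix.star_mulVec, ← Matrix.mulVec_mulVec, Matrix.dotProduct_mulVec]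

lemma exp_real_smul_herm (H : Matrix n n ℂ) (hH : H.IsHermitian) (c : ℝ) :
    ((c : ℂ) • H).IsHermitian := by
  unfold Matrix.IsHermitian
  rw [Matrix.conjTranspose_smul, hH.eq]
  simp

/-- exponentials of real multiples of `H` -/
lemma exp_smul_mul (H : Matrix n n ℂ) (a b : ℝ) :
    NormedSpace.exp ((a : ℂ) • H) * NormedSpace.exp ((b : ℂ) • H) =
      NormedSpace.exp (((a + b : ℝ) : ℂ) • H) := by
  rw [← Matrix.exp_add_of_commute]
  · congr 1
    push_cast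
    rw [add_smul]
  · exact ((Commute.refl H).smul_left _).smul_right _

lemma exp_zero_smul (H : Matrix n n ℂ) : NormedSpace.exp (((0 : ℝ) : ℂ) • H) = 1 := by
  simp

/-- scalar shift -/
lemma exp_shift (Y : Matrix n n ℂ) (c : ℝ) :
    NormedSpace.exp ((c : ℂ) • (1 : Matrix n n ℂ) + Y) = (Real.exp c : ℂ) • NormedSpace.exp Y := by
  rw [Matrix.exp_add_of_commute]
  · have h1 : ((c : ℂ) • (1 : Matrix n n ℂ)) = Matrix.diagonal (fun _ => (c : ℂ)) := by
      rw [Matrix.smul_one_eq_diagonal]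
    rw [h1, Matrix.exp_diagonal]
    have h2 : NormedSpace.exp (fun _ : n => (c : ℂ)) = fun _ => (Real.exp c : ℂ) := by
      funext i
      rw [Pi.coe_exp, ← Complex.exp_eq_exp_ℂ, ← Complex.ofReal_exp]
    rw [h2, ← Matrix.smul_one_eq_diagonal, Matrix.smul_mul, Matrix.one_mul]
  · exact (Commute.one_left Y).smul_left _

/-- the trace of the exponential of a Hermitian matrix is positive -/
lemma tr_exp_pos [Nonempty n] (Y : Matrix n n ℂ) (hY : Y.IsHermitian) :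
    0 < (NormedSpace.exp Y).trace.re ∧ (NormedSpace.exp Y).trace.im = 0 := by
  set A : Matrix n n ℂ := NormedSpace.exp (((1 / 2 : ℝ) : ℂ) • Y) with hA
  have hAh : Aᴴ = A := (exp_real_smul_herm Y hY (1 / 2)).exp.eq
  have hAA : NormedSpace.exp Y = A * Aᴴ := by
    rw [hAh, hA, exp_smul_mul]
    norm_num
  have htr : (A * Aᴴ).trace = ((∑ i, ∑ k, ‖A i k‖ ^ 2 : ℝ) : ℂ) := by
    rw [Matrix.trace]
    push_cast
    refine Finset.sum_congr rfl fun i _ => ?_
    rw [Matrix.diag_apply, Matrix.mul_apply]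
    refine Finset.sum_congr rfl fun k _ => ?_
    rw [Matrix.conjTranspose_apply, Complex.star_def, Complex.mul_conj']
  rw [hAA, htr]
  refine ⟨?_, Complex.ofReal_im _⟩
  rw [Complex.ofReal_re]
  have hne : A ≠ 0 := by
    intro h0
    have h1 := exp_smul_mul Y (1 / 2) (-(1 / 2))
    rw [← hA, h0, Matrix.zero_mul] at h1
    have h2 : NormedSpace.exp ((((1 / 2 + -(1 / 2)) : ℝ) : ℂ) • Y) = (1 : Matrix n n ℂ) := by
      norm_num
    rw [h2] at h1
    exact zero_ne_one h1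
  have h3 : ∃ i k, A i k ≠ 0 := by
    by_contra hcon
    push Not at hcon
    apply hne
    ext i k
    simpa using hcon i k
  obtain ⟨i, k, hik⟩ := h3
  have h4 : 0 < ‖A i k‖ ^ 2 := by positivity
  have h5 : ‖A i k‖ ^ 2 ≤ ∑ k, ‖A i k‖ ^ 2 :=
    Finset.single_le_sum (f := fun k => ‖A i k‖ ^ 2) (fun _ _ => by positivity) (Finset.mem_univ k)
  have h6 : ∑ k, ‖A i k‖ ^ 2 ≤ ∑ i, ∑ k, ‖A i k‖ ^ 2 :=
    Finset.single_le_sum (f := fun i => ∑ k, ‖A i k‖ ^ 2)
      (fun _ _ => Finset.sum_nonneg fun _ _ => by positivity) (Finset.mem_univ i)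
  linarith

lemma nsq_nr (v : n → ℂ) : nsq v = nr v ^ 2 := (Pool.Agent.TH235.PP.nr_sq v).symm

/-- a matrix close to `1` almost preserves the norm -/
lemma near_one (X : Matrix n n ℂ) (hX : ‖X - 1‖ ≤ 1 / 2) (v : n → ℂ) :
    1 / 4 * nsq v ≤ nsq (X *ᵥ v) ∧ nsq (X *ᵥ v) ≤ 9 / 4 * nsq v := by
  have h1 : nr ((X - 1) *ᵥ v) ≤ 1 / 2 * nr v :=
    (Pool.Agent.TH235.PP.nr_mulVec _ _).trans
      (mul_le_mul_of_nonneg_right hX (Pool.Agent.TH235.PP.nr_nonneg _))
  have h2 : X *ᵥ v = v + (X - 1) *ᵥ v := by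
    rw [Matrix.sub_mulVec, Matrix.one_mulVec]
    abel
  have h3 : nr (X *ᵥ v) ≤ nr v + nr ((X - 1) *ᵥ v) := by
    rw [h2]
    exact Pool.Agent.TH235.PP.nr_add _ _
  have h4 : nr v ≤ nr (X *ᵥ v) + nr ((X - 1) *ᵥ v) := by
    have h5 : v = X *ᵥ v + (-1 : ℂ) • ((X - 1) *ᵥ v) := by
      rw [Matrix.sub_mulVec, Matrix.one_mulVec, neg_one_smul]
      abel
    calc nr v = nr (X *ᵥ v + (-1 : ℂ) • ((X - 1) *ᵥ v)) := by rw [← h5]
      _ ≤ nr (X *ᵥ v) + nr ((-1 : ℂ) • ((X - 1) *ᵥ v)) := Pool.Agent.TH235.PP.nr_add _ _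
      _ = _ := by
        rw [Pool.Agent.TH235.PP.nr_smul]
        simp
  have h0 := Pool.Agent.TH235.PP.nr_nonneg v
  have h0' := Pool.Agent.TH235.PP.nr_nonneg (X *ᵥ v)
  rw [nsq_nr, nsq_nr]
  constructor
  · have : 1 / 2 * nr v ≤ nr (X *ᵥ v) := by linarith
    nlinarith
  · have : nr (X *ᵥ v) ≤ 3 / 2 * nr v := by linarith
    nlinarith

/-- `S = Tᴴ T` is comparable to `exp (-2 τ H)` -/
lemma sandwich (H T : Matrix n n ℂ) (τ : ℝ) (hH : H.IsHermitian)
    (hT : ‖T * NormedSpace.exp ((τ : ℂ) • H) - 1‖ ≤ 1 / 2) (v : n → ℂ) :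
    1 / 4 * qf (NormedSpace.exp (((-(2 * τ) : ℝ) : ℂ) • H)) v ≤ qf (Tᴴ * T) v ∧
      qf (Tᴴ * T) v ≤ 9 / 4 * qf (NormedSpace.exp (((-(2 * τ) : ℝ) : ℂ) • H)) v := by
  set E : Matrix n n ℂ := NormedSpace.exp (((-τ : ℝ) : ℂ) • H) with hE
  have hEh : Eᴴ = E := (exp_real_smul_herm H hH (-τ)).exp.eq
  have h1 : NormedSpace.exp (((-(2 * τ) : ℝ) : ℂ) • H) = Eᴴ * E := by
    rw [hEh, hE, exp_smul_mul]
    congr 3
    ring
  set X : Matrix n n ℂ := T * NormedSpace.exp ((τ : ℂ) • H) with hX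
  have h2 : T = X * E := by
    rw [hX, Matrix.mul_assoc, hE, exp_smul_mul]
    simp
  rw [h1, qf_conj_mul, qf_conj_mul]
  have h3 : T *ᵥ v = X *ᵥ (E *ᵥ v) := by rw [Matrix.mulVec_mulVec, ← h2]
  rw [h3]
  exact near_one X hT _

lemma sum_vecMulVec (A : Matrix n n ℂ) :
    ∑ s : n, Matrix.vecMulVec (A *ᵥ Pi.single s (1 : ℂ)) (star (A *ᵥ Pi.single s (1 : ℂ))) =
      A * Aᴴ := by
  ext i k
  rw [Matrix.sum_apply, Matrix.mul_apply]
  refine Finset.sum_congr rfl fun s _ => ?_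
  rw [Matrix.vecMulVec_apply, Matrix.mulVec_single_one, Matrix.conjTranspose_apply]
  rfl

theorem refF (h1 : StmLog) (h2 : StmLogM) (h3 : StmTrM) : StmRefF := by
  intro n _ _ _ H T τ j hH hτ hT
  set S : Matrix n n ℂ := Tᴴ * T with hS
  have hSh : S.IsHermitian := Matrix.isHermitian_conjTranspose_mul_self T
  -- the logarithm
  obtain ⟨Λ, hΛh, hΛS, hΛl⟩ := h1 n S (((2 * τ : ℝ) : ℂ) • H) hSh
    (exp_real_smul_herm H hH _) (1 / 4) (by norm_num) (by
      intro φ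
      have h := (sandwich H T τ hH hT φ).1
      have e : -(((2 * τ : ℝ) : ℂ) • H) = ((-(2 * τ) : ℝ) : ℂ) • H := by
        rw [← neg_smul]
        push_cast
        rfl
      rw [e]
      exact h)
  -- the upper bound of the logarithm
  have hΛu : ∀ φ : n → ℂ, qf Λ φ ≤ qf (((Real.log (9 / 4) : ℝ) : ℂ) • (1 : Matrix n n ℂ) +
      ((-(2 * τ) : ℝ) : ℂ) • H) φ := by
    apply h2 n Λ _ hΛh
    · exact (exp_real_smul_herm _ Matrix.isHermitian_one _).add (exp_real_smul_herm H hH _)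
    · intro φ
      rw [hΛS, exp_shift, qf_smul, Real.exp_log (by norm_num)]
      exact (sandwich H T τ hH hT φ).2
  have hpow : S ^ (2 * j) = NormedSpace.exp (((2 * j : ℝ) : ℂ) • Λ) := by
    have h4 := Matrix.exp_nsmul (2 * j) Λ
    rw [hΛS] at h4
    rw [← h4]
    congr 1
    rw [← Nat.cast_smul_eq_nsmul ℂ]
    push_cast
    rfl
  have h2jh : ((((2 * j : ℝ) : ℂ)) • Λ).IsHermitian := exp_real_smul_herm Λ hΛh _
  set Z : ℝ := (NormedSpace.exp (((2 * j : ℝ) : ℂ) • Λ)).trace.re with hZ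
  have hZp : 0 < Z := (tr_exp_pos _ h2jh).1
  have hZc : (NormedSpace.exp (((2 * j : ℝ) : ℂ) • Λ)).trace = (Z : ℂ) := by
    apply Complex.ext
    · rw [Complex.ofReal_re]
    · rw [Complex.ofReal_im]
      exact (tr_exp_pos _ h2jh).2
  set Γ : Matrix n n ℂ := ((-Real.log Z : ℝ) : ℂ) • (1 : Matrix n n ℂ) + ((2 * j : ℝ) : ℂ) • Λ
    with hΓ
  have hΓe : NormedSpace.exp Γ = ((Z⁻¹ : ℝ) : ℂ) • S ^ (2 * j) := by
    rw [hΓ, exp_shift, hpow, Real.exp_neg, Real.exp_log hZp]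
  refine ⟨Z⁻¹, Γ, (inv_pos.2 hZp).le, ?_, ?_, ?_, ?_⟩
  · exact (exp_real_smul_herm _ Matrix.isHermitian_one _).add h2jh
  · rw [hΓe, ← Finset.smul_sum, sum_vecMulVec]
    congr 1
    have h5 : (S ^ j)ᴴ = S ^ j := (hSh.pow j).eq
    rw [h5, ← pow_add]
    congr 1
    ring
  · rw [hΓe, Matrix.trace_smul, hpow, hZc, smul_eq_mul, ← Complex.ofReal_mul,
      inv_mul_cancel₀ hZp.ne', Complex.ofReal_one]
  · intro φ hφ
    have hj : (0 : ℝ) ≤ j := Nat.cast_nonneg j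
    -- the bound of `log Z`
    have hlZ : Real.log Z ≤ 2 * j * Real.log (9 / 4) +
        Real.log (NormedSpace.exp (((-(4 * j * τ) : ℝ) : ℂ) • H)).trace.re := by
      have h6 : ∀ φ : n → ℂ, qf (((2 * j : ℝ) : ℂ) • Λ) φ ≤
          qf (((2 * j * Real.log (9 / 4) : ℝ) : ℂ) • (1 : Matrix n n ℂ) +
            ((-(4 * j * τ) : ℝ) : ℂ) • H) φ := by
        intro φ
        have h7 := hΛu φ
        rw [qf_add, qf_smul, qf_smul] at h7
        rw [qf_smul, qf_add, qf_smul, qf_smul]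
        have h8 := mul_le_mul_of_nonneg_left h7 (by positivity : (0 : ℝ) ≤ 2 * j)
        linarith
      have h9 := h3 n _ _ h2jh ((exp_real_smul_herm _ Matrix.isHermitian_one _).add
        (exp_real_smul_herm H hH _)) h6
      rw [exp_shift, Matrix.trace_smul, smul_eq_mul, Complex.re_ofReal_mul, ← hZ] at h9
      have h10 := (tr_exp_pos _ (exp_real_smul_herm H hH (-(4 * j * τ)))).1
      have h11 := Real.log_le_log hZp h9
      rw [Real.log_mul (Real.exp_pos _).ne' h10.ne', Real.log_exp] at h11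
      exact h11
    have h12 := hΛl φ hφ
    rw [qf_smul] at h12
    have h13 : qf Γ φ = -Real.log Z + 2 * j * qf Λ φ := by
      rw [hΓ, qf_add, qf_smul, qf_smul, qf_one, hφ, mul_one]
    rw [h13]
    have h14 := mul_le_mul_of_nonneg_left h12 (by positivity : (0 : ℝ) ≤ 2 * j)
    have h15 : Real.log (9 / 4) - Real.log (1 / 4) ≤ 8 := by
      rw [← Real.log_div (by norm_num) (by norm_num)]
      have := Real.log_le_sub_one_of_pos (show (0 : ℝ) < 9 / 4 / (1 / 4) by norm_num)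
      norm_num at this ⊢
      linarith
    have h16 := mul_le_mul_of_nonneg_left h15 (by positivity : (0 : ℝ) ≤ 2 * j)
    linarith

end Pool.Agent.N160.TP.RefF
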